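import Pool.Agent.P.MP_d7fca3_co.Defs

-- part Pool.Agent.P.MP_d7fca3_co.Lists
section

set_option autoImplicit false

namespace Pool.Agent.P.MP_d7fca3_co

/-- power of a word -/
def pw {A : Type} (e : List A) (n : ℕ) : List A := (List.replicate n e).flatten

lemma pw_zero {A : Type} (e : List A) : pw e 0 = [] := by simp [pw]

lemma pw_succ {A : Type} (e : List A) (n : ℕ) : pw e (n + 1) = e ++ pw e n := by
  simp [pw, List.replicate_succ]

lemma pw_add {A : Type} (e : List A) (m n : ℕ) : pw e (m + n) = pw e m ++ pw e n := by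
  simp only [pw, List.replicate_add, List.flatten_append]

lemma count_pw {A : Type} [DecidableEq A] (c : A) (e : List A) (n : ℕ) :
    (pw e n).count c = n * e.count c := by
  induction n with
  | zero => simp [pw_zero]
  | succ n ih => rw [pw_succ, List.count_append, ih]; ring

lemma length_pw {A : Type} (e : List A) (n : ℕ) : (pw e n).length = n * e.length := by
  induction n with
  | zero => simp [pw_zero]
  | succ n ih => rw [pw_succ, List.length_append, ih]; ring

lemma split_unique {A : Type} [DecidableEq A] (z : A) (u v u' v' : List A)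
    (h : u ++ z :: v = u' ++ z :: v') (hc : u.count z = u'.count z) : u = u' := by
  rcases List.append_eq_append_iff.mp h with ⟨a, h1, h2⟩ | ⟨a, h1, h2⟩
  · rcases a with _ | ⟨b, a⟩
    · simpa using h1.symm
    · have hb : z = b := by simpa using congrArg List.head? h2
      subst hb
      rw [h1] at hc
      simp at hc
  · rcases a with _ | ⟨b, a⟩
    · simpa using h1
    · have hb : z = b := by simpa using congrArg List.head? h2
      subst hb
      rw [h1] at hc
      simp at hc

lemma exists_split {A : Type} [DecidableEq A] (z : A) (w : List A) (g : ℕ) (hg : g < w.count z) :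
    ∃ u v, w = u ++ z :: v ∧ u.count z = g := by
  induction w generalizing g with
  | nil => simp at hg
  | cons a w ih =>
    by_cases ha : a = z
    · subst ha
      rcases g with _ | g
      · exact ⟨[], w, rfl, rfl⟩
      · obtain ⟨u, v, h1, h2⟩ := ih g (by simpa using hg)
        exact ⟨a :: u, v, by rw [h1]; rfl, by simp [h2]⟩
    · obtain ⟨u, v, h1, h2⟩ := ih g (by simpa [List.count_cons, ha] using hg)
      exact ⟨a :: u, v, by rw [h1]; rfl, by simp [ha, h2]⟩

lemma filter_split {A : Type} (P : A → Bool) (S p r : List A) (y : A)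
    (h : S.filter P = p ++ y :: r) :
    ∃ p' r', S = p' ++ y :: r' ∧ p'.filter P = p ∧ r'.filter P = r := by
  obtain ⟨l1, l2, rfl, h1, h2⟩ := List.filter_eq_append_iff.mp h
  obtain ⟨l3, l4, rfl, h3, -, h5⟩ := List.filter_eq_cons_iff.mp h2
  refine ⟨l1 ++ l3, l4, by simp, ?_, h5⟩
  rw [List.filter_append, h1, List.filter_eq_nil_iff.mpr h3, List.append_nil]

lemma exists_rewrite {A : Type} [DecidableEq A] (N : Finset A) (S T : List A)
    (hl : (S.filter (· ∈ N)).length = T.length) (hT : ∀ a ∈ T, a ∈ N) :
    ∃ S', List.Forall₂ (fun a b => if a ∈ N then b ∈ N else b = a) S S' ∧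
      S'.filter (· ∈ N) = T := by
  induction S generalizing T with
  | nil =>
    have : T = [] := List.length_eq_zero_iff.mp (by simpa using hl.symm)
    exact ⟨[], List.Forall₂.nil, by simp [this]⟩
  | cons a S ih =>
    by_cases ha : a ∈ N
    · rcases T with _ | ⟨b, T⟩
      · simp [ha] at hl
      · obtain ⟨S', h1, h2⟩ := ih T (by simpa [ha] using hl)
          (fun c hc => hT c (List.mem_cons_of_mem _ hc))
        have hb : b ∈ N := hT b List.mem_cons_self
        exact ⟨b :: S', List.Forall₂.cons (by simp [ha, hb]) h1, by simp [hb, h2]⟩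
    · obtain ⟨S', h1, h2⟩ := ih T (by simpa [ha] using hl) hT
      exact ⟨a :: S', List.Forall₂.cons (by simp [ha]) h1, by simp [ha, h2]⟩

lemma mask_eq {A : Type} [DecidableEq A] (N : Finset A) (S S' : List A)
    (h : List.Forall₂ (fun a b => if a ∈ N then b ∈ N else b = a) S S') :
    S.map (fun a => decide (a ∈ N)) = S'.map (fun a => decide (a ∈ N)) := by
  induction h with
  | nil => rfl
  | @cons a b S S' hab _ ih =>
    simp only [List.map_cons, ih, List.cons.injEq, and_true]
    by_cases ha : a ∈ N
    · simp only [ha, if_true] at hab; simp [ha, hab]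
    · simp only [ha, if_false] at hab; simp [hab]

lemma count_true_mask {A : Type} [DecidableEq A] (N : Finset A) (S : List A) :
    (S.map (fun a => decide (a ∈ N))).count true = (S.filter (· ∈ N)).length := by
  induction S with
  | nil => rfl
  | cons a S ih => by_cases ha : a ∈ N <;> simp [ha, ih]

lemma rewrite_split {A : Type} [DecidableEq A] (N : Finset A) (S S' p' r' : List A) (y : A)
    (hy : y ∉ N) (h : List.Forall₂ (fun a b => if a ∈ N then b ∈ N else b = a) S S')
    (hS : S = p' ++ y :: r') :
    ∃ p r, S' = p ++ y :: r ∧ (p.filter (· ∈ N)).length = (p'.filter (· ∈ N)).length := by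
  subst hS
  induction p' generalizing S' with
  | nil =>
    rcases h with _ | ⟨hab, h⟩
    simp only [hy, if_false] at hab
    subst hab
    exact ⟨[], _, rfl, rfl⟩
  | cons a p' ih =>
    rcases h with _ | ⟨hab, h⟩
    rename_i b S''
    obtain ⟨p, r, rfl, h2⟩ := ih _ h
    refine ⟨b :: p, r, rfl, ?_⟩
    by_cases ha : a ∈ N
    · simp only [ha, if_true] at hab; simp [ha, hab, h2]
    · simp only [ha, if_false] at hab; simp [ha, hab, h2]

lemma prefix_len_le {A : Type} [DecidableEq A] (f : A) (π : List A) (a : ℕ) (u v : List A)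
    (h : pw (f :: π) a = u ++ v) : u.length ≤ (π.length + 1) * u.count f := by
  induction a generalizing u with
  | zero =>
    rw [pw_zero] at h
    have : u = [] := (List.append_eq_nil_iff.mp h.symm).1
    simp [this]
  | succ a ih =>
    rw [pw_succ] at h
    rcases List.append_eq_append_iff.mp h with ⟨c, h1, h2⟩ | ⟨c, h1, h2⟩
    · have := ih c h2
      rw [h1]
      simp only [List.length_append, List.length_cons, List.count_append, List.count_cons_self]
      nlinarith [Nat.zero_le ((π.length + 1) * π.count f)]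
    · rcases u with _ | ⟨b, u⟩
      · simp
      · have hb : f = b := by simpa using congrArg List.head? h1
        subst hb
        have hl := congrArg List.length h1
        simp only [List.length_cons, List.length_append] at hl
        simp only [List.length_cons, List.count_cons_self]
        nlinarith [Nat.zero_le ((π.length + 1) * u.count f)]

lemma length_eq_count_add {A : Type} [DecidableEq A] (x z : A) (hxz : x ≠ z) (u : List A)
    (h : ∀ a ∈ u, a = x ∨ a = z) : u.length = u.count x + u.count z := by
  induction u with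
  | nil => rfl
  | cons a u ih =>
    have := ih (fun b hb => h b (List.mem_cons_of_mem _ hb))
    rcases h a List.mem_cons_self with rfl | rfl
    · simp [hxz, this]; omega
    · simp [hxz.symm, this]; omega

lemma count_le_of_split {A : Type} [DecidableEq A] (x z : A) (u v p s : List A)
    (h : u ++ z :: v = p ++ s) (hc : u.count z < p.count z) : u.count x ≤ p.count x := by
  rcases List.append_eq_append_iff.mp h with ⟨c, h1, _⟩ | ⟨c, h1, _⟩
  · rw [h1]; simp
  · rw [h1] at hc; simp at hc

lemma count_ge_of_split {A : Type} [DecidableEq A] (x z : A) (u v p s : List A)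
    (h : u ++ z :: v = p ++ s) (hc : p.count z ≤ u.count z) : p.count x ≤ u.count x := by
  rcases List.append_eq_append_iff.mp h with ⟨c, h1, h2⟩ | ⟨c, h1, _⟩
  · rcases c with _ | ⟨b, c⟩
    · rw [h1]; simp
    · have hb : z = b := by simpa using congrArg List.head? h2
      subst hb
      rw [h1] at hc; simp at hc
  · rw [h1]; simp

lemma ref_word {A : Type} [DecidableEq A] (x z : A) (hxz : x ≠ z) (r a t : ℕ)
    (ht : t < (2 * r + 1) * a) (hr : t % (2 * r + 1) ≠ r) :
    ∃ u v, pw (List.replicate r z ++ [x] ++ List.replicate r z) a = u ++ z :: v ∧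
      u.length = t ∧ 2 * u.count x * r ≤ u.count z + r ∧ u.count z ≤ (2 * u.count x + 1) * r := by
  set B := List.replicate r z ++ [x] ++ List.replicate r z with hB
  have hBx : B.count x = 1 := by simp [hB, List.count_replicate, hxz.symm]
  have hBz : B.count z = 2 * r := by simp [hB, hxz]; omega
  have hBl : B.length = 2 * r + 1 := by simp [hB]; omega
  obtain ⟨j, s, hs, rfl⟩ : ∃ j s, s < 2 * r + 1 ∧ t = (2 * r + 1) * j + s :=
    ⟨t / (2 * r + 1), t % (2 * r + 1), Nat.mod_lt _ (by omega), (Nat.div_add_mod _ _).symm⟩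
  have hsr : s ≠ r := by
    intro h
    apply hr
    rw [Nat.mul_add_mod, Nat.mod_eq_of_lt hs, h]
  have hj : j < a := by
    by_contra hcon
    have := Nat.mul_le_mul_left (2 * r + 1) (not_lt.mp hcon)
    omega
  obtain ⟨k, rfl⟩ := Nat.exists_eq_add_of_lt hj
  have hp : pw B (j + k + 1) = pw B j ++ (B ++ pw B k) := by
    rw [Nat.add_assoc, pw_add, pw_succ]
  rcases lt_or_gt_of_ne hsr with h | h
  · obtain ⟨m, rfl⟩ := Nat.exists_eq_add_of_lt h
    refine ⟨pw B j ++ List.replicate s z,
      List.replicate m z ++ [x] ++ List.replicate (s + m + 1) z ++ pw B k, ?_, ?_, ?_, ?_⟩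
    · rw [hp]
      have : List.replicate (s + m + 1) z = List.replicate s z ++ z :: List.replicate m z := by
        rw [show s + m + 1 = s + (m + 1) by ring, List.replicate_add, List.replicate_succ]
      have hB' : B = (List.replicate s z ++ z :: List.replicate m z) ++ [x] ++
          List.replicate (s + m + 1) z := by rw [← this]
      conv_lhs => enter [2, 1]; rw [hB']
      simp only [List.append_assoc, List.cons_append]
    · rw [List.length_append, length_pw, hBl, List.length_replicate]; ring
    · simp only [List.count_append, count_pw, hBx, hBz, List.count_replicate]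
      simp [hxz.symm]; nlinarith
    · simp only [List.count_append, count_pw, hBx, hBz, List.count_replicate]
      simp [hxz.symm]; nlinarith
  · obtain ⟨m, rfl⟩ := Nat.exists_eq_add_of_lt h
    obtain ⟨m', rfl⟩ := Nat.exists_eq_add_of_lt (show m < r by omega)
    refine ⟨pw B j ++ (List.replicate (m + m' + 1) z ++ [x] ++ List.replicate m z),
      List.replicate m' z ++ pw B k, ?_, ?_, ?_, ?_⟩
    · rw [hp]
      have : List.replicate (m + m' + 1) z = List.replicate m z ++ z :: List.replicate m' z := by
        rw [show m + m' + 1 = m + (m' + 1) by ring, List.replicate_add, List.replicate_succ]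
      have hB' : B = List.replicate (m + m' + 1) z ++ [x] ++
          (List.replicate m z ++ z :: List.replicate m' z) := by rw [← this]
      conv_lhs => enter [2, 1]; rw [hB']
      simp only [List.append_assoc, List.cons_append]
    · simp only [List.length_append, length_pw, hBl, List.length_replicate, List.length_singleton]
      ring
    · simp only [List.count_append, count_pw, hBx, hBz, List.count_replicate]
      simp [hxz, hxz.symm]; nlinarith
    · simp only [List.count_append, count_pw, hBx, hBz, List.count_replicate]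
      simp [hxz, hxz.symm]; nlinarith

end Pool.Agent.P.MP_d7fca3_co
end

-- part Pool.Agent.P.MP_d7fca3_co.Rigid
section

set_option autoImplicit false
set_option linter.unusedSectionVars false

namespace Pool.Agent.P.MP_d7fca3_co

variable {ι : Type} [DecidableEq ι]

/-- two-model instance -/
noncomputable def two (x z : ι) (a d : ℕ) : ι →₀ ℕ := Finsupp.single x a + Finsupp.single z d

lemma two_left (x z : ι) (hxz : x ≠ z) (a d : ℕ) : two x z a d x = a := by
  simp [two, hxz]

lemma two_right (x z : ι) (hxz : x ≠ z) (a d : ℕ) : two x z a d z = d := by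
  simp [two, hxz.symm]

lemma two_other (x z y : ι) (hx : y ≠ x) (hz : y ≠ z) (a d : ℕ) : two x z a d y = 0 := by
  simp [two, hx, hz]

lemma two_ne_zero (x z : ι) (hxz : x ≠ z) (a d : ℕ) (ha : 0 < a) : two x z a d ≠ 0 := by
  intro h
  have := two_left x z hxz a d
  rw [h] at this
  simp at this
  omega

lemma filter_pair (q : ι →₀ ℕ) (x z : ι) (hxz : x ≠ z) :
    q.filter (· ∈ ({x, z} : Finset ι)) = two x z (q x) (q z) := by
  ext y
  rw [Finsupp.filter_apply]
  by_cases hx : y = x
  · subst hx; simp [two_left _ _ hxz]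
  · by_cases hz : y = z
    · subst hz; simp [two_right _ _ hxz]
    · simp [hx, hz, two_other _ _ _ hx hz]

lemma total_pos (q : ι →₀ ℕ) (hq : q ≠ 0) : (0 : ℚ) < ∑ i ∈ q.support, (q i : ℚ) := by
  apply Finset.sum_pos
  · intro i hi
    exact_mod_cast Nat.pos_of_ne_zero (Finsupp.mem_support_iff.mp hi)
  · exact Finsupp.support_nonempty_iff.mpr hq

lemma idealPos_le_iff (q : ι →₀ ℕ) (hq : q ≠ 0) (x y : ι) (j k : ℕ) (hx : 0 < q x) (hy : 0 < q y) :
    idealPos q (x, j + 1) ≤ idealPos q (y, k + 1) ↔ (2 * j + 1) * q y ≤ (2 * k + 1) * q x := by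
  have hQ := total_pos q hq
  have hx' : (0 : ℚ) < q x := by exact_mod_cast hx
  have hy' : (0 : ℚ) < q y := by exact_mod_cast hy
  simp only [idealPos]
  rw [div_le_div_iff₀ (by positivity) (by positivity)]
  set Q := ∑ i ∈ q.support, (q i : ℚ)
  have : ((2 * j + 1) * q y ≤ (2 * k + 1) * q x) ↔
      ((2 * (j : ℚ) + 1) * q y ≤ (2 * k + 1) * q x) := by norm_cast
  rw [this]
  push_cast
  constructor
  · intro h
    by_contra hc
    push Not at hc
    nlinarith [mul_pos hQ (sub_pos.mpr hc)]
  · intro h
    nlinarith [mul_nonneg hQ.le (sub_nonneg.mpr h)]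

lemma two_injOn (x z : ι) (hxz : x ≠ z) (a r : ℕ) (ha : 0 < a) :
    Set.InjOn (idealPos (two x z a (2 * r * a)))
      {p | 1 ≤ p.2 ∧ p.2 ≤ two x z a (2 * r * a) p.1} := by
  rintro ⟨i, j⟩ ⟨hj1, hj2⟩ ⟨i', j'⟩ ⟨hk1, hk2⟩ h
  simp only at hj1 hj2 hk1 hk2
  obtain ⟨j, rfl⟩ : ∃ j0, j = j0 + 1 := ⟨j - 1, by omega⟩
  obtain ⟨j', rfl⟩ : ∃ j0, j' = j0 + 1 := ⟨j' - 1, by omega⟩
  have hq := two_ne_zero x z hxz a (2 * r * a) ha
  have h1 := (idealPos_le_iff _ hq i i' j j' (by omega) (by omega)).mp h.le
  have h2 := (idealPos_le_iff _ hq i' i j' j (by omega) (by omega)).mp h.ge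
  have he := le_antisymm h1 h2
  have hi : i = x ∨ i = z := by
    by_contra hc
    push Not at hc
    rw [two_other _ _ _ hc.1 hc.2] at hj2
    omega
  have hi' : i' = x ∨ i' = z := by
    by_contra hc
    push Not at hc
    rw [two_other _ _ _ hc.1 hc.2] at hk2
    omega
  rcases hi with rfl | rfl <;> rcases hi' with rfl | rfl
  · have := Nat.eq_of_mul_eq_mul_right (by omega) he
    have : j = j' := by omega
    rw [this]
  · rw [two_left _ _ hxz, two_right _ _ hxz] at he
    have : (2 * j + 1) * (2 * r) = 2 * j' + 1 :=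
      Nat.eq_of_mul_eq_mul_right ha (by rw [← he]; ring)
    have h3 : 2 * ((2 * j + 1) * r) = 2 * j' + 1 := by rw [← this]; ring
    omega
  · rw [two_left _ _ hxz, two_right _ _ hxz] at he
    have : (2 * j' + 1) * (2 * r) = 2 * j + 1 :=
      Nat.eq_of_mul_eq_mul_right ha (by rw [he]; ring)
    have h3 : 2 * ((2 * j' + 1) * r) = 2 * j + 1 := by rw [← this]; ring
    omega
  · have := Nat.eq_of_mul_eq_mul_right (by omega) he
    have : j = j' := by omega
    rw [this]

section
variable {F : (ι →₀ ℕ) → Set (List ι)}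

lemma mem_support_of_mem (hM : IsMethod F) {q : ι →₀ ℕ} (hq : q ≠ 0) {S : List ι} (hS : S ∈ F q)
    {a : ι} (ha : a ∈ S) : a ∈ q.support := by
  rw [Finsupp.mem_support_iff, ← (hM q hq).2 S hS a]
  exact (List.count_pos_iff.mpr ha).ne'

lemma mem_two (hM : IsMethod F) {x z : ι} (hxz : x ≠ z) {a d : ℕ} (ha : 0 < a) {S : List ι}
    (hS : S ∈ F (two x z a d)) {b : ι} (hb : b ∈ S) : b = x ∨ b = z := by
  have := mem_support_of_mem hM (two_ne_zero x z hxz a d ha) hS hb
  by_contra hc
  push Not at hc
  rw [Finsupp.mem_support_iff, two_other _ _ _ hc.1 hc.2] at this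
  exact this rfl

lemma exists_rewrite_mem (hM : IsMethod F) (hU : IsUniform F) {q : ι →₀ ℕ} (hq : q ≠ 0)
    (N : Finset ι) (hN : N.Nonempty) (hNq : N ⊆ q.support) {S : List ι} (hS : S ∈ F q)
    {T : List ι} (hT : T ∈ F (q.filter (· ∈ N))) :
    ∃ S' ∈ F q, List.Forall₂ (fun a b => if a ∈ N then b ∈ N else b = a) S S' ∧
      S'.filter (· ∈ N) = T := by
  have hq' : q.filter (· ∈ N) ≠ 0 := by
    obtain ⟨i, hi⟩ := hN
    intro h
    have := DFunLike.congr_fun h i
    rw [Finsupp.filter_apply_pos _ _ hi] at this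
    exact Finsupp.mem_support_iff.mp (hNq hi) this
  obtain ⟨h1, h2⟩ := hU q hq N hN hNq S hS
  have hp : (S.filter (· ∈ N)).Perm T := by
    rw [List.perm_iff_count]
    intro i
    rw [(hM _ hq').2 _ h1 i, (hM _ hq').2 _ hT i]
  obtain ⟨S', h3, h4⟩ := exists_rewrite N S T hp.length_eq (fun a ha => by
    have := mem_support_of_mem hM hq' hT ha
    rw [Finsupp.support_filter] at this
    exact (Finset.mem_filter.mp this).2)
  exact ⟨S', h2 T hT S' h3 h4, h3, h4⟩

lemma two_form (hR : IsReflectiveOffTies F) {x z : ι} (hxz : x ≠ z) {a r : ℕ} (ha : 0 < a)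
    {S : List ι} (hS : S ∈ F (two x z a (2 * r * a))) :
    ∃ U W : List ι, S = U ++ W ++ U.reverse ∧ (W = [] ∨ W = [x]) := by
  obtain ⟨U, W, h1, h2, h3⟩ := hR _ (two_ne_zero x z hxz a _ ha) (two_injOn x z hxz a r ha) S hS
  refine ⟨U, W, h1, ?_⟩
  have hW : ∀ i ∈ W, i = x := by
    intro i hi
    have ho := (h3 i).mp hi
    by_contra hx
    by_cases hz : i = z
    · subst hz
      rw [two_right _ _ hxz] at ho
      obtain ⟨k, hk⟩ := ho
      have : 2 * (r * a) = 2 * k + 1 := by rw [← hk]; ring
      omega
    · rw [two_other _ _ _ hx hz] at ho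
      simp at ho
  rcases W with _ | ⟨b, _ | ⟨c, W⟩⟩
  · exact Or.inl rfl
  · right; rw [hW b List.mem_cons_self]
  · have hb := hW b (by simp)
    have hc := hW c (by simp)
    simp [hb, hc] at h2

lemma two_pal (hR : IsReflectiveOffTies F) {x z : ι} (hxz : x ≠ z) {a r : ℕ} (ha : 0 < a)
    {S : List ι} (hS : S ∈ F (two x z a (2 * r * a))) : S.reverse = S := by
  obtain ⟨U, W, rfl, h | h⟩ := two_form hR hxz ha hS <;> subst h <;> simp

lemma ref_mem (hM : IsMethod F) (hP : IsPeriodic F) (hR : IsReflectiveOffTies F) {x z : ι}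
    (hxz : x ≠ z) {a : ℕ} (r : ℕ) (ha : 0 < a) :
    pw (List.replicate r z ++ [x] ++ List.replicate r z) a ∈ F (two x z a (2 * r * a)) := by
  have hq := two_ne_zero x z hxz 1 (2 * r * 1) one_pos
  obtain ⟨S, hS⟩ := (hM _ hq).1
  obtain ⟨U, W, h1, h2⟩ := two_form hR hxz one_pos hS
  have hx := (hM _ hq).2 S hS x
  have hz := (hM _ hq).2 S hS z
  rw [two_left _ _ hxz] at hx
  rw [two_right _ _ hxz] at hz
  have hmem : ∀ b ∈ U, b = x ∨ b = z := fun b hb =>
    mem_two hM hxz one_pos hS (by rw [h1]; simp [hb])
  rw [h1] at hx hz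
  simp only [List.count_append, List.count_reverse] at hx hz
  have hW : W = [x] := by
    rcases h2 with h | h
    · subst h; simp at hx; omega
    · exact h
  subst hW
  have hUx : U.count x = 0 := by simp at hx; omega
  have hUz : U.count z = r := by simp [hxz] at hz; omega
  have hU : U = List.replicate r z := by
    rw [List.eq_replicate_iff]
    refine ⟨by rw [length_eq_count_add x z hxz U hmem]; omega, ?_⟩
    intro b hb
    rcases hmem b hb with rfl | rfl
    · exact absurd hb (List.count_eq_zero.mp hUx)
    · rfl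
  have := hP _ hq a ha S hS
  rw [h1, hU, List.reverse_replicate] at this
  have e : two x z a (2 * r * a) = a • two x z 1 (2 * r * 1) := by
    ext i
    simp only [two, Finsupp.coe_smul, Finsupp.coe_add, Pi.smul_apply, Pi.add_apply,
      Finsupp.single_apply, smul_eq_mul]
    split_ifs <;> ring
  rw [e]
  exact this

/-- `C` is a set of models of demand `a`, and `z` has demand `d`. -/
noncomputable def clones (C : Finset ι) (z : ι) (a d : ℕ) : ι →₀ ℕ :=
  a • Finsupp.indicator C (fun _ _ => 1) + Finsupp.single z d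

lemma clones_mem (C : Finset ι) (z : ι) (hz : z ∉ C) (a d : ℕ) (c : ι) (hc : c ∈ C) :
    clones C z a d c = a := by
  have : c ≠ z := fun h => hz (h ▸ hc)
  simp [clones, Finsupp.indicator_apply, hc, this]

lemma clones_z (C : Finset ι) (z : ι) (hz : z ∉ C) (a d : ℕ) : clones C z a d z = d := by
  simp [clones, Finsupp.indicator_apply, hz]

lemma clones_other (C : Finset ι) (z : ι) (a d : ℕ) (c : ι) (hc : c ∉ C) (hcz : c ≠ z) :
    clones C z a d c = 0 := by
  simp [clones, Finsupp.indicator_apply, hc, hcz]

lemma clones_dvd (hM : IsMethod F) (hP : IsPeriodic F) (hU : IsUniform F)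
    (hR : IsReflectiveOffTies F) (C : Finset ι) (hC : C.Nonempty) (z : ι) (hz : z ∉ C)
    {a r : ℕ} (ha : 0 < a) (hr : 0 < r) {S : List ι} (hS : S ∈ F (clones C z a (2 * r * a)))
    (p s : List ι) (hp : S = p ++ z :: s) : C.card ∣ (p.filter (· ∈ C)).length := by
  set q := clones C z a (2 * r * a) with hqdef
  obtain ⟨c0, hc0⟩ := hC
  have hq : q ≠ 0 := by
    intro h
    have := clones_mem C z hz a (2 * r * a) c0 hc0
    rw [← hqdef, h] at this
    simp at this; omega
  have hCq : C ⊆ q.support := by
    intro c hc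
    rw [Finsupp.mem_support_iff, clones_mem C z hz a _ c hc]; omega
  set one : ι →₀ ℕ := Finsupp.indicator C (fun _ _ => 1) with hone
  have hone_ap : ∀ i, one i = if i ∈ C then 1 else 0 := by
    intro i; simp [hone, Finsupp.indicator_apply]
  have h1 : one ≠ 0 := by
    intro h
    have := hone_ap c0
    rw [h] at this
    simp [hc0] at this
  obtain ⟨π, hπ⟩ := (hM _ h1).1
  have hπc := (hM _ h1).2 π hπ
  have hπa := hP _ h1 a ha π hπ
  have hfil : q.filter (· ∈ C) = a • one := by
    ext i
    rw [Finsupp.filter_apply]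
    by_cases hi : i ∈ C
    · simp [hi, hone_ap, hqdef, clones_mem C z hz a _ i hi]
    · simp [hi, hone_ap]
  rw [← hfil] at hπa
  obtain ⟨S', hS', hF, hfilt⟩ := exists_rewrite_mem hM hU hq C ⟨c0, hc0⟩ hCq hS hπa
  obtain ⟨p', s', hp', hlen⟩ := rewrite_split C S S' p s z hz hF hp
  rw [← hlen]
  have hπlen : π.length = C.card := by
    have hperm : π.Perm C.toList := by
      rw [List.perm_iff_count]
      intro i
      rw [hπc i, hone_ap]
      by_cases hi : i ∈ C
      · rw [if_pos hi, List.count_eq_one_of_mem C.nodup_toList (Finset.mem_toList.mpr hi)]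
      · rw [if_neg hi, List.count_eq_zero_of_not_mem (fun h => hi (Finset.mem_toList.mp h))]
    rw [hperm.length_eq, Finset.length_toList]
  -- the mirrored letter z
  have hcz := (hM _ hq).2 S' hS' z
  have hcz' : p'.count z + s'.count z + 1 = S'.count z := by rw [hp']; simp; omega
  obtain ⟨p'', s'', hp'', hcnt⟩ := exists_split z S' (s'.count z) (by omega)
  have hcz'' : p''.count z + s''.count z + 1 = S'.count z := by
    conv_rhs => rw [hp'']
    simp; omega
  have hkey : ∀ c ∈ C, p'.count c = s''.count c := by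
    intro c hc
    have hcne : c ≠ z := fun h => hz (h ▸ hc)
    have hsub : ({c, z} : Finset ι) ⊆ q.support := by
      intro i hi
      rcases Finset.mem_insert.mp hi with rfl | hi
      · exact hCq hc
      · rw [Finset.mem_singleton.mp hi, Finsupp.mem_support_iff, clones_z C z hz]
        positivity
    have h2 := (hU q hq {c, z} (by simp) hsub S' hS').1
    rw [filter_pair q c z hcne, clones_mem C z hz a _ c hc, clones_z C z hz] at h2
    have h3 := two_pal hR hcne ha h2
    have e1 : S'.filter (· ∈ ({c, z} : Finset ι)) =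
        p'.filter (· ∈ ({c, z} : Finset ι)) ++ z :: s'.filter (· ∈ ({c, z} : Finset ι)) := by
      rw [hp']; simp
    have e2 : (S'.filter (· ∈ ({c, z} : Finset ι))).reverse =
        (s''.filter (· ∈ ({c, z} : Finset ι))).reverse ++
          z :: (p''.filter (· ∈ ({c, z} : Finset ι))).reverse := by
      rw [hp'']; simp
    rw [h3, e1] at e2
    have e3 := split_unique z _ _ _ _ e2 (by
      rw [List.count_reverse, List.count_filter (by simp), List.count_filter (by simp)]; omega)
    have e4 := congrArg (List.count c) e3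
    rwa [List.count_reverse, List.count_filter (by simp), List.count_filter (by simp)] at e4
  have hperm : (p'.filter (· ∈ C)).Perm (s''.filter (· ∈ C)) := by
    rw [List.perm_iff_count]
    intro i
    by_cases hi : i ∈ C
    · rw [List.count_filter (by simp [hi]), List.count_filter (by simp [hi]), hkey i hi]
    · rw [List.count_eq_zero_of_not_mem (by simp [hi]),
        List.count_eq_zero_of_not_mem (by simp [hi])]
  rcases π with _ | ⟨f, π⟩
  · have := hπc c0
    rw [hone_ap] at this
    simp [hc0] at this
  have hf : f ∈ C := by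
    have := hπc f
    rw [hone_ap] at this
    by_contra hc
    simp [hc] at this
  have hf1 : (f :: π).count f = 1 := by rw [hπc f, hone_ap, if_pos hf]
  change S'.filter (· ∈ C) = pw (f :: π) a at hfilt
  have g1 : pw (f :: π) a = p'.filter (· ∈ C) ++ s'.filter (· ∈ C) := by
    rw [← hfilt, hp']; simp [hz]
  have g2 : pw (f :: π) a = p''.filter (· ∈ C) ++ s''.filter (· ∈ C) := by
    rw [← hfilt, hp'']; simp [hz]
  have b1 := prefix_len_le f π a _ _ g1
  have b2 := prefix_len_le f π a _ _ g2
  have l2 := congrArg List.length g2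
  have c2 := congrArg (List.count f) g2
  rw [length_pw, List.length_append] at l2
  rw [count_pw, List.count_append, hf1] at c2
  have l3 := hperm.length_eq
  have c3 := hperm.count_eq f
  rw [← hπlen]
  simp only [List.length_cons] at l2 ⊢
  refine ⟨(p'.filter (· ∈ C)).count f, le_antisymm b1 ?_⟩
  rw [c3, l3]
  nlinarith

lemma rigid [Infinite ι] (hM : IsMethod F) (hP : IsPeriodic F) (hU : IsUniform F)
    (hR : IsReflectiveOffTies F) {x z : ι} (hxz : x ≠ z) {a r : ℕ} (ha : 0 < a) (hr : 0 < r)
    {w1 w2 : List ι} (h1 : w1 ∈ F (two x z a (2 * r * a))) (h2 : w2 ∈ F (two x z a (2 * r * a)))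
    (p1 s1 p2 s2 : List ι) (e1 : w1 = p1 ++ z :: s1) (e2 : w2 = p2 ++ z :: s2)
    (hl : p1.length = p2.length) : p1.count x = p2.count x := by
  obtain ⟨t, ht, htc⟩ := Infinite.exists_superset_card_eq ({x, z} : Finset ι) (a + 2)
    (by rw [Finset.card_pair hxz]; omega)
  set C := t.erase z with hC
  have hzt : z ∈ t := ht (by simp)
  have hCc : C.card = a + 1 := by rw [hC, Finset.card_erase_of_mem hzt, htc]; rfl
  have hxC : x ∈ C := Finset.mem_erase.mpr ⟨hxz, ht (by simp)⟩
  have hzC : z ∉ C := Finset.notMem_erase z t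
  set q := clones C z a (2 * r * a) with hqdef
  have hqx : q x = a := clones_mem C z hzC a _ x hxC
  have hqz : q z = 2 * r * a := clones_z C z hzC a _
  have hq : q ≠ 0 := by
    intro h
    rw [h] at hqx
    simp at hqx; omega
  have hsub : ({x, z} : Finset ι) ⊆ q.support := by
    intro i hi
    rcases Finset.mem_insert.mp hi with rfl | hi
    · rw [Finsupp.mem_support_iff, hqx]; omega
    · rw [Finset.mem_singleton.mp hi, Finsupp.mem_support_iff, hqz]
      positivity
  obtain ⟨S, hS⟩ := (hM q hq).1
  have hfil := filter_pair q x z hxz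
  rw [hqx, hqz] at hfil
  have main : ∀ (w p s : List ι), w ∈ F (two x z a (2 * r * a)) → w = p ++ z :: s →
      ∃ (P : List ι) (R : List Bool), S.map (fun b => decide (b ∈ ({x, z} : Finset ι))) =
        P.map (fun b => decide (b ∈ ({x, z} : Finset ι))) ++ true :: R ∧
        (P.map (fun b => decide (b ∈ ({x, z} : Finset ι)))).count true = p.length ∧
        ∃ n, (a + 1) ∣ n ∧ n + p.length = P.length + p.count x ∧ p.count x ≤ a := by
    intro w p s hw e
    obtain ⟨S', hS', hF, hfilt⟩ := exists_rewrite_mem hM hU hq {x, z} (by simp) hsub hS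
      (hfil ▸ hw)
    obtain ⟨P, R, hPR, hPp, -⟩ := filter_split _ S' p s z (hfilt.trans e)
    refine ⟨P, R.map (fun b => decide (b ∈ ({x, z} : Finset ι))), ?_, ?_,
      (P.filter (· ∈ C)).length, ?_, ?_, ?_⟩
    · rw [mask_eq _ S S' hF, hPR]; simp
    · rw [count_true_mask, hPp]
    · rw [← hCc]
      exact clones_dvd hM hP hU hR C ⟨x, hxC⟩ z hzC ha hr hS' P R hPR
    · have hpm : ∀ b ∈ p, b = x ∨ b = z := fun b hb =>
        mem_two hM hxz ha hw (by rw [e]; simp [hb])
      rw [length_eq_count_add x z hxz p hpm]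
      have hz1 : p.count z = P.count z := by rw [← hPp, List.count_filter (by simp)]
      have hz2 : P.length = (P.filter (· ∈ C)).length + P.count z := by
        have hPm : ∀ b ∈ P, b ∈ C ∨ b = z := by
          intro b hb
          have := mem_support_of_mem hM hq hS' (a := b) (by rw [hPR]; simp [hb])
          by_contra hc
          push Not at hc
          rw [Finsupp.mem_support_iff, clones_other C z a _ b hc.1 hc.2] at this
          exact this rfl
        clear hPR hPp hz1
        induction P with
        | nil => rfl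
        | cons b P ih =>
          have := ih (fun c hc => hPm c (List.mem_cons_of_mem _ hc))
          rcases hPm b List.mem_cons_self with hb | rfl
          · have hbz : b ≠ z := fun h => hzC (h ▸ hb)
            simp [hb, hbz, this]; omega
          · simp [hzC, this]; omega
      omega
    · have := (hM _ (two_ne_zero x z hxz a _ ha)).2 w hw x
      rw [two_left _ _ hxz, e, List.count_append] at this
      omega
  obtain ⟨P1, R1, a1, b1, n1, d1, f1, g1⟩ := main w1 p1 s1 h1 e1
  obtain ⟨P2, R2, a2, b2, n2, d2, f2, g2⟩ := main w2 p2 s2 h2 e2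
  have hPP := split_unique true _ _ _ _ (a1.symm.trans a2) (by rw [b1, b2, hl])
  have hPl := congrArg List.length hPP
  simp only [List.length_map] at hPl
  rcases le_total (p1.count x) (p2.count x) with h | h
  · have : (a + 1) ∣ p2.count x - p1.count x := by
      have := Nat.dvd_sub d2 d1
      rwa [show n2 - n1 = p2.count x - p1.count x by omega] at this
    have := Nat.eq_zero_of_dvd_of_lt this (by omega)
    omega
  · have : (a + 1) ∣ p1.count x - p2.count x := by
      have := Nat.dvd_sub d1 d2
      rwa [show n1 - n2 = p1.count x - p2.count x by omega] at this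
    have := Nat.eq_zero_of_dvd_of_lt this (by omega)
    omega

lemma good_of_two [Infinite ι] (hM : IsMethod F) (hP : IsPeriodic F) (hU : IsUniform F)
    (hR : IsReflectiveOffTies F) {x z : ι} (hxz : x ≠ z) {a r : ℕ} (ha : 0 < a) (hr : a < r)
    {w : List ι} (hw : w ∈ F (two x z a (2 * r * a))) (g : ℕ) (hg : g + 1 < 2 * r * a) :
    ∃ u v, w = u ++ z :: v ∧ g ≤ u.count z ∧ u.count z ≤ g + 1 ∧
      2 * u.count x * r ≤ u.count z + r ∧ u.count z ≤ (2 * u.count x + 1) * r := by
  have hq := two_ne_zero x z hxz a (2 * r * a) ha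
  have hcx := (hM _ hq).2 w hw x
  have hcz := (hM _ hq).2 w hw z
  rw [two_left _ _ hxz] at hcx
  rw [two_right _ _ hxz] at hcz
  have hwl : w.length = (2 * r + 1) * a := by
    rw [length_eq_count_add x z hxz w (fun b hb => mem_two hM hxz ha hw hb), hcx, hcz]; ring
  have hlen : ∀ u v, w = u ++ z :: v → u.length = u.count x + u.count z := fun u v e =>
    length_eq_count_add x z hxz u (fun b hb => mem_two hM hxz ha hw (by rw [e]; simp [hb]))
  have good : ∀ u v, w = u ++ z :: v → u.length % (2 * r + 1) ≠ r →
      2 * u.count x * r ≤ u.count z + r ∧ u.count z ≤ (2 * u.count x + 1) * r := by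
    intro u v e hne
    have ht : u.length < (2 * r + 1) * a := by
      rw [← hwl, e]; simp
    obtain ⟨u', v', e', hl', b1, b2⟩ := ref_word x z hxz r a u.length ht hne
    have href := ref_mem hM hP hR hxz r ha
    have hx := rigid hM hP hU hR hxz ha (by omega) hw href u v u' v' e e' hl'.symm
    have hl2 : u'.length = u'.count x + u'.count z :=
      length_eq_count_add x z hxz u' (fun b hb => mem_two hM hxz ha href (by rw [e']; simp [hb]))
    have hl1 := hlen u v e
    have hz : u.count z = u'.count z := by omega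
    rw [hx, hz]
    exact ⟨b1, b2⟩
  obtain ⟨u, v, e, hu⟩ := exists_split z w g (by omega)
  obtain ⟨u2, v2, e2, hu2⟩ := exists_split z w (g + 1) (by omega)
  by_cases c1 : u.length % (2 * r + 1) = r
  · by_cases c2 : u2.length % (2 * r + 1) = r
    · exfalso
      have k1 := count_le_of_split x z u v u2 (z :: v2) (e.symm.trans e2) (by omega)
      have k2 : u2.count x ≤ a := by
        rw [← hcx, e2, List.count_append]; omega
      have l1 := hlen u v e
      have l2 := hlen u2 v2 e2
      have hd : (2 * r + 1) ∣ u2.length - u.length :=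
        (Nat.modEq_iff_dvd' (by omega)).mp (c1.trans c2.symm)
      have := Nat.eq_zero_of_dvd_of_lt hd (by omega)
      omega
    · obtain ⟨b1, b2⟩ := good u2 v2 e2 c2
      exact ⟨u2, v2, e2, by omega, by omega, b1, b2⟩
  · obtain ⟨b1, b2⟩ := good u v e c1
    exact ⟨u, v, e, by omega, by omega, b1, b2⟩

lemma prefix_bounds [Infinite ι] (hM : IsMethod F) (hP : IsPeriodic F) (hU : IsUniform F)
    (hR : IsReflectiveOffTies F) {x z : ι} (hxz : x ≠ z) {a r : ℕ} (ha : 0 < a) (hr : a < r)
    {w : List ι} (hw : w ∈ F (two x z a (2 * r * a))) (p s : List ι) (e : w = p ++ s) :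
    p.count z ≤ (2 * p.count x + 1) * r + 2 ∧ 2 * p.count x * r ≤ p.count z + 1 + r := by
  have hq := two_ne_zero x z hxz a (2 * r * a) ha
  have hcx := (hM _ hq).2 w hw x
  have hcz := (hM _ hq).2 w hw z
  rw [two_left _ _ hxz, e, List.count_append] at hcx
  rw [two_right _ _ hxz, e, List.count_append] at hcz
  constructor
  · by_cases hg : p.count z < 2
    · omega
    · obtain ⟨u, v, e', b1, b2, -, b4⟩ :=
        good_of_two hM hP hU hR hxz ha hr hw (p.count z - 2) (by omega)
      have k := count_le_of_split x z u v p s (e'.symm.trans e) (by omega)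
      have : (2 * u.count x + 1) * r ≤ (2 * p.count x + 1) * r :=
        Nat.mul_le_mul_right _ (by omega)
      omega
  · by_cases hg : p.count z + 1 < 2 * r * a
    · obtain ⟨u, v, e', b1, b2, b3, -⟩ := good_of_two hM hP hU hR hxz ha hr hw (p.count z) hg
      have k := count_ge_of_split x z u v p s (e'.symm.trans e) b1
      have : 2 * p.count x * r ≤ 2 * u.count x * r := Nat.mul_le_mul_right _ (by omega)
      omega
    · have : 2 * p.count x * r ≤ 2 * a * r := Nat.mul_le_mul_right _ (by omega)
      have h2 : 2 * a * r = 2 * r * a := by ring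
      omega

theorem webster_of_mem [Infinite ι] (hM : IsMethod F) (hP : IsPeriodic F) (hU : IsUniform F)
    (hR : IsReflectiveOffTies F) {q : ι →₀ ℕ} (hq : q ≠ 0) {T : List ι} (hT : T ∈ F q)
    (p s : List ι) (y : ι) (e : T = p ++ y :: s) (x : ι) :
    (2 * p.count y + 1) * q x ≤ (2 * p.count x + 1) * q y := by
  by_cases hxy : x = y
  · rw [hxy]
  rcases Nat.eq_zero_or_pos (q x) with hx | hx
  · rw [hx]; simp
  have hyq : y ∈ q.support := mem_support_of_mem hM hq hT (by rw [e]; simp)
  have hy : 0 < q y := Nat.pos_of_ne_zero (Finsupp.mem_support_iff.mp hyq)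
  have hxq : x ∈ q.support := Finsupp.mem_support_iff.mpr hx.ne'
  obtain ⟨z, hz⟩ := Infinite.exists_notMem_finset q.support
  have hz0 : q z = 0 := Finsupp.notMem_support_iff.mp hz
  have hxz : x ≠ z := fun h => hz (h ▸ hxq)
  have hyz : y ≠ z := fun h => hz (h ▸ hyq)
  set L := q x + q y + 4 with hL
  set q' : ι →₀ ℕ := q + Finsupp.single z (2 * q x * q y * L) with hq'def
  have hq'ne : ∀ i, i ≠ z → q' i = q i := by
    intro i hi; simp [hq'def, hi]
  have hq'z : q' z = 2 * q x * q y * L := by simp [hq'def, hz0]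
  have hq' : q' ≠ 0 := by
    intro h
    have := hq'ne x hxz
    rw [h] at this
    simp at this; omega
  have hsub : q.support ⊆ q'.support := by
    intro i hi
    rw [Finsupp.mem_support_iff, hq'ne i (fun h => hz (h ▸ hi))]
    exact Finsupp.mem_support_iff.mp hi
  have hfil : q'.filter (· ∈ q.support) = q := by
    ext i
    rw [Finsupp.filter_apply]
    by_cases hi : i ∈ q.support
    · rw [if_pos hi, hq'ne i (fun h => hz (h ▸ hi))]
    · rw [if_neg hi, Finsupp.notMem_support_iff.mp hi]
  obtain ⟨S, hS⟩ := (hM q' hq').1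
  obtain ⟨S', hS', -, hfilt⟩ := exists_rewrite_mem hM hU hq' q.support ⟨x, hxq⟩ hsub hS
    (hfil.symm ▸ hT)
  obtain ⟨P, R, hPR, hPp, -⟩ := filter_split _ S' p s y (hfilt.trans e)
  have hpair : ∀ c ∈ q.support, S'.filter (· ∈ ({c, z} : Finset ι)) ∈
      F (two c z (q c) (2 * q x * q y * L)) := by
    intro c hc
    have hcz : c ≠ z := fun h => hz (h ▸ hc)
    have hs : ({c, z} : Finset ι) ⊆ q'.support := by
      intro i hi
      rcases Finset.mem_insert.mp hi with rfl | hi
      · exact hsub hc
      · rw [Finset.mem_singleton.mp hi, Finsupp.mem_support_iff, hq'z]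
        positivity
    have h2 := (hU q' hq' {c, z} (by simp) hs S' hS').1
    rwa [filter_pair q' c z hcz, hq'ne c hcz, hq'z] at h2
  have wx := hpair x hxq
  have wy := hpair y hyq
  rw [show 2 * q x * q y * L = 2 * (q y * L) * q x by ring] at wx
  rw [show 2 * q x * q y * L = 2 * (q x * L) * q y by ring] at wy
  have bx := (prefix_bounds hM hP hU hR hxz hx (by nlinarith) wx
    (P.filter (· ∈ ({x, z} : Finset ι))) ((y :: R).filter (· ∈ ({x, z} : Finset ι)))
    (by rw [hPR, List.filter_append])).1
  have byy := (prefix_bounds hM hP hU hR hyz hy (by nlinarith) wy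
    ((P ++ [y]).filter (· ∈ ({y, z} : Finset ι))) (R.filter (· ∈ ({y, z} : Finset ι)))
    (by rw [hPR, ← List.filter_append]; simp)).2
  rw [List.count_filter (by simp), List.count_filter (by simp)] at bx byy
  have hx1 : P.count x = p.count x := by rw [← hPp, List.count_filter (by simpa using hx.ne')]
  have hy1 : P.count y = p.count y := by rw [← hPp, List.count_filter (by simpa using hy.ne')]
  simp only [List.count_append, List.count_singleton_self, List.count_singleton,
    beq_iff_eq, hyz, if_false, add_zero] at byy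
  rw [hx1] at bx
  rw [hy1] at byy
  by_contra hc
  push Not at hc
  have h5 : ((2 * p.count x + 1) * q y + 1) * L ≤ (2 * p.count y + 1) * q x * L :=
    Nat.mul_le_mul_right _ hc
  nlinarith

end

end Pool.Agent.P.MP_d7fca3_co
end

-- part Pool.Agent.P.MP_d7fca3_co.Main
section

set_option autoImplicit false
set_option linter.unusedSectionVars false

namespace Pool.Agent.P.MP_d7fca3_co

variable {ι : Type} [DecidableEq ι]

/-- label each letter with its occurrence number -/
def lab : List ι → List ι → List (ι × ℕ)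
  | _, [] => []
  | p, y :: r => (y, p.count y + 1) :: lab (p ++ [y]) r

lemma map_fst_lab (p S : List ι) : (lab p S).map Prod.fst = S := by
  induction S generalizing p with
  | nil => rfl
  | cons y r ih => simp [lab, ih]

lemma mem_lab (p S : List ι) (c : ι × ℕ) :
    c ∈ lab p S ↔ p.count c.1 < c.2 ∧ c.2 ≤ p.count c.1 + S.count c.1 := by
  induction S generalizing p with
  | nil => simp [lab]
  | cons y r ih =>
    obtain ⟨i, j⟩ := c
    simp only [lab, List.mem_cons, ih, Prod.mk.injEq, List.count_append, List.count_cons,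
      List.count_nil, beq_iff_eq]
    by_cases h : y = i
    · subst h; simp; omega
    · simp [h, Ne.symm h]

lemma nodup_lab (p S : List ι) : (lab p S).Nodup := by
  induction S generalizing p with
  | nil => simp [lab]
  | cons y r ih =>
    simp only [lab, List.nodup_cons, ih, and_true, mem_lab]
    simp

/-- Webster's rule -/
def Webster (q : ι →₀ ℕ) (S : List ι) : Prop :=
  ∀ (p s : List ι) (y : ι), S = p ++ y :: s → ∀ x,
    (2 * p.count y + 1) * q x ≤ (2 * p.count x + 1) * q y

lemma eip_of_webster {q : ι →₀ ℕ} (hq : q ≠ 0) {T : List ι} (hc : ∀ i, T.count i = q i)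
    (hW : Webster q T) : T ∈ EIP q := by
  refine ⟨lab [] T, nodup_lab _ _, ?_, ?_, (map_fst_lab _ _).symm⟩
  · intro c
    rw [mem_lab, hc]
    simp only [List.count_nil, zero_add]
    rfl
  · have : ∀ (S p : List ι), T = p ++ S →
        (lab p S).Pairwise (fun c c' => idealPos q c ≤ idealPos q c') := by
      intro S
      induction S with
      | nil => intro p _; simp [lab]
      | cons y r ih =>
        intro p e
        simp only [lab, List.pairwise_cons]
        refine ⟨?_, ih (p ++ [y]) (by rw [e]; simp)⟩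
        rintro ⟨i, j⟩ hij
        rw [mem_lab] at hij
        simp only [List.count_append] at hij
        obtain ⟨k, rfl⟩ : ∃ k, j = k + 1 := ⟨j - 1, by omega⟩
        have hy : 0 < q y := by rw [← hc, e]; simp
        have hi : 0 < q i := by
          rw [← hc, e, List.count_append]
          have : r.count i ≤ (y :: r).count i := List.count_le_count_cons
          omega
        rw [idealPos_le_iff q hq y i _ _ hy hi]
        refine (hW p r y e i).trans (Nat.mul_le_mul_right _ (by omega))
    exact this T [] rfl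

lemma exists_word (q : ι →₀ ℕ) : ∃ S : List ι, ∀ i, S.count i = q i := by
  refine ⟨(Finsupp.toMultiset q).toList, fun i => ?_⟩
  rw [← Multiset.coe_count, Multiset.coe_toList, Finsupp.count_toMultiset]

lemma count_of_eip {q : ι →₀ ℕ} {S : List ι} (hS : S ∈ EIP q) (i : ι) : S.count i = q i := by
  obtain ⟨L, h1, h2, -, rfl⟩ := hS
  obtain ⟨S0, hS0⟩ := exists_word q
  have hp : L.Perm (lab [] S0) := by
    rw [List.perm_ext_iff_of_nodup h1 (nodup_lab _ _)]
    intro c
    rw [h2, mem_lab, hS0]
    simp only [List.count_nil, zero_add]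
    rfl
  rw [(hp.map Prod.fst).count_eq, map_fst_lab, hS0]

lemma eip_nonempty (q : ι →₀ ℕ) : (EIP q).Nonempty := by
  obtain ⟨S0, hS0⟩ := exists_word q
  set L := (lab [] S0).mergeSort (fun c c' => decide (idealPos q c ≤ idealPos q c')) with hL
  have hp : L.Perm (lab [] S0) := List.mergeSort_perm _ _
  refine ⟨L.map Prod.fst, L, hp.nodup_iff.mpr (nodup_lab _ _), ?_, ?_, rfl⟩
  · intro c
    rw [hp.mem_iff, mem_lab, hS0]
    simp only [List.count_nil, zero_add]
    rfl
  · have := List.pairwise_mergeSort (le := fun c c' => decide (idealPos q c ≤ idealPos q c'))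
      (by intro a b c; simp only [decide_eq_true_eq]; exact le_trans)
      (by intro a b; simp only [Bool.or_eq_true, decide_eq_true_eq]; exact le_total _ _)
      (lab [] S0)
    exact this.imp (by simp)

lemma count_card (P : List (ι × ℕ)) (hP : P.Nodup) (x : ι) :
    ∃ A : Finset ℕ, A.card = (P.map Prod.fst).count x ∧ ∀ k, k ∈ A ↔ (x, k) ∈ P := by
  induction P with
  | nil => exact ⟨∅, rfl, by simp⟩
  | cons c P ih =>
    obtain ⟨hc, hP⟩ := List.nodup_cons.mp hP
    obtain ⟨A, h1, h2⟩ := ih hP
    obtain ⟨i, j⟩ := c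
    by_cases hi : i = x
    · subst hi
      refine ⟨insert j A, ?_, ?_⟩
      · rw [Finset.card_insert_of_notMem (fun h => hc ((h2 j).mp h)), h1]; simp
      · intro k; simp [h2]
    · refine ⟨A, by simp [hi, h1], ?_⟩
      intro k; simp [h2, Ne.symm hi]

lemma webster_of_eip {q : ι →₀ ℕ} (hq : q ≠ 0) {S : List ι} (hS : S ∈ EIP q) : Webster q S := by
  obtain ⟨L, h1, h2, h3, rfl⟩ := hS
  intro p s y e x
  obtain ⟨P, R', rfl, hP, hR'⟩ := List.map_eq_append_iff.mp e
  obtain ⟨⟨y', j⟩, R, rfl, hy, hR⟩ := List.map_eq_cons_iff.mp hR'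
  simp only at hy
  subst hy
  subst hP
  have hj := (h2 (y', j)).mp (by simp)
  simp only at hj
  obtain ⟨j, rfl⟩ : ∃ k, j = k + 1 := ⟨j - 1, by omega⟩
  have hyq : 0 < q y' := by omega
  rw [List.nodup_append] at h1
  rw [List.pairwise_append, List.pairwise_cons] at h3
  obtain ⟨A, hA1, hA2⟩ := count_card P h1.1 y'
  have c1 : (P.map Prod.fst).count y' ≤ j := by
    rw [← hA1]
    have : A ⊆ Finset.Icc 1 j := by
      intro k hk
      have hk' := (hA2 k).mp hk
      have hv := (h2 (y', k)).mp (by simp [hk'])
      simp only at hv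
      obtain ⟨k, rfl⟩ : ∃ k', k = k' + 1 := ⟨k - 1, by omega⟩
      have := (idealPos_le_iff q hq y' y' k j hyq hyq).mp (h3.2.2 _ hk' _ (by simp))
      have hle := Nat.le_of_mul_le_mul_right this hyq
      have hne : k ≠ j := by
        rintro rfl
        exact h1.2.2 _ hk' _ (by simp) rfl
      rw [Finset.mem_Icc]; omega
    simpa using Finset.card_le_card this
  by_cases hx : (P.map Prod.fst).count x < q x
  · obtain ⟨B, hB1, hB2⟩ := count_card P h1.1 x
    have : ¬ Finset.Icc 1 ((P.map Prod.fst).count x + 1) ⊆ B := by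
      intro h
      have := Finset.card_le_card h
      simp at this
      omega
    obtain ⟨k, hk1, hk2⟩ := Finset.not_subset.mp this
    rw [Finset.mem_Icc] at hk1
    obtain ⟨k, rfl⟩ : ∃ k', k = k' + 1 := ⟨k - 1, by omega⟩
    have hm := (h2 (x, k + 1)).mpr ⟨by simp, by simp only; omega⟩
    rw [hB2] at hk2
    have hle : idealPos q (y', j + 1) ≤ idealPos q (x, k + 1) := by
      rcases List.mem_append.mp hm with h | h
      · exact absurd h hk2
      · rcases List.mem_cons.mp h with h | h
        · rw [h]
        · exact h3.2.1.1 _ h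
    have := (idealPos_le_iff q hq y' x j k hyq (by omega)).mp hle
    calc _ ≤ (2 * j + 1) * q x := Nat.mul_le_mul_right _ (by omega)
      _ ≤ (2 * k + 1) * q y' := this
      _ ≤ _ := Nat.mul_le_mul_right _ (by omega)
  · calc _ ≤ (2 * q y') * q x := Nat.mul_le_mul_right _ (by omega)
      _ = (2 * q x) * q y' := by ring
      _ ≤ _ := Nat.mul_le_mul_right _ (by omega)

lemma pw_split {A : Type} (S : List A) (m : ℕ) (p s : List A) (y : A)
    (h : pw S m = p ++ y :: s) : ∃ t p' s', p = pw S t ++ p' ∧ S = p' ++ y :: s' := by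
  induction m generalizing p with
  | zero => simp [pw_zero] at h
  | succ m ih =>
    rw [pw_succ] at h
    rcases List.append_eq_append_iff.mp h with ⟨c, h1, h2⟩ | ⟨c, h1, h2⟩
    · obtain ⟨t, p', s', e1, e2⟩ := ih c h2
      exact ⟨t + 1, p', s', by rw [h1, e1, pw_succ, List.append_assoc], e2⟩
    · rcases c with _ | ⟨b, c⟩
      · obtain ⟨t, p', s', e1, e2⟩ := ih [] (by simpa using h2.symm)
        refine ⟨t + 1, p', s', ?_, e2⟩
        rw [pw_succ, List.append_assoc, ← e1, h1]; simp
      · have hb : y = b := by simpa using congrArg List.head? h2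
        subst hb
        exact ⟨0, p, c, by simp [pw_zero], h1⟩

theorem eip_isMethod : IsMethod (EIP (ι := ι)) :=
  fun q _ => ⟨eip_nonempty q, fun _ hS i => count_of_eip hS i⟩

theorem eip_isPeriodic : IsPeriodic (EIP (ι := ι)) := by
  intro q hq m hm S hS
  have hc := count_of_eip hS
  have hW := webster_of_eip hq hS
  have hq' : m • q ≠ 0 := smul_ne_zero (by omega) hq
  apply eip_of_webster hq'
  · intro i
    change (pw S m).count i = _
    rw [count_pw, hc]; simp
  · intro p s y e x
    obtain ⟨t, p', s', rfl, e2⟩ := pw_split S m p s y e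
    have := hW p' s' y e2 x
    simp only [List.count_append, count_pw, hc, Finsupp.coe_smul, Pi.smul_apply, smul_eq_mul]
    nlinarith [Nat.mul_le_mul_left m this]

/-- normalised ideal position -/
def key (q : ι →₀ ℕ) (c : ι × ℕ) : ℚ := (2 * (c.2 : ℚ) - 1) / (q c.1 : ℚ)

lemma idealPos_le_key (q : ι →₀ ℕ) (hq : q ≠ 0) (c c' : ι × ℕ) :
    idealPos q c ≤ idealPos q c' ↔ key q c ≤ key q c' := by
  have hQ := total_pos q hq
  have e : ∀ c, idealPos q c = key q c * ((∑ i ∈ q.support, (q i : ℚ)) / 2) := by
    intro c; simp only [idealPos, key]; ring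
  rw [e, e, mul_le_mul_iff_left₀ (by positivity)]

lemma rewrite_labels (f : ι × ℕ → ℚ) (N : Finset ι) (L LT : List (ι × ℕ)) (S' : List ι)
    (h1 : List.Forall₂ (fun a b => if a ∈ N then b ∈ N else b = a) (L.map Prod.fst) S')
    (h2 : S'.filter (· ∈ N) = LT.map Prod.fst)
    (h3 : (L.filter (fun c => c.1 ∈ N)).map f = LT.map f) :
    ∃ L' : List (ι × ℕ), L'.map Prod.fst = S' ∧ L'.map f = L.map f ∧
      L'.Perm (LT ++ L.filter (fun c => c.1 ∉ N)) := by
  induction L generalizing LT S' with
  | nil =>
    rcases h1 with _ | _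
    have : LT = [] := by simpa using h3.symm
    exact ⟨[], rfl, rfl, by simp [this]⟩
  | cons a L ih =>
    rcases h1 with _ | ⟨hab, h1⟩
    rename_i b S0
    by_cases ha : a.1 ∈ N
    · simp only [ha, if_true] at hab
      rcases LT with _ | ⟨c, LT⟩
      · simp [ha] at h3
      · simp only [List.filter_cons, hab, ha, decide_true, if_true, List.map_cons,
          List.cons.injEq] at h2 h3
        obtain ⟨L', e1, e2, e3⟩ := ih LT S0 h1 h2.2 h3.2
        refine ⟨c :: L', by simp [e1, h2.1], by simp [e2, h3.1], ?_⟩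
        simpa [ha] using e3
    · simp only [ha, if_false] at hab
      subst hab
      simp only [List.filter_cons, ha, decide_false] at h2 h3
      obtain ⟨L', e1, e2, e3⟩ := ih LT S0 h1 (by simpa using h2) (by simpa using h3)
      refine ⟨a :: L', by simp [e1], by simp [e2], ?_⟩
      simp only [List.filter_cons, ha, not_false_eq_true, decide_true, if_true]
      exact (e3.cons a).trans List.perm_middle.symm

theorem eip_isUniform : IsUniform (EIP (ι := ι)) := by
  intro q hq N hN hNq S hS
  have hq' : q.filter (· ∈ N) ≠ 0 := by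
    obtain ⟨i, hi⟩ := hN
    intro h
    have := DFunLike.congr_fun h i
    rw [Finsupp.filter_apply_pos _ _ hi] at this
    exact Finsupp.mem_support_iff.mp (hNq hi) this
  refine ⟨?_, ?_⟩
  · have hc := count_of_eip hS
    have hW := webster_of_eip hq hS
    apply eip_of_webster hq'
    · intro i
      by_cases hi : i ∈ N
      · rw [List.count_filter (by simp [hi]), hc, Finsupp.filter_apply_pos _ _ hi]
      · rw [List.count_eq_zero_of_not_mem (by simp [hi]), Finsupp.filter_apply_neg _ _ hi]
    · intro p s y e x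
      have hy : y ∈ N := by
        have : y ∈ S.filter (· ∈ N) := by rw [e]; simp
        simpa using (List.mem_filter.mp this).2
      obtain ⟨p', s', e1, rfl, -⟩ := filter_split _ S p s y e
      by_cases hx : x ∈ N
      · rw [List.count_filter (by simp [hy]), List.count_filter (by simp [hx]),
          Finsupp.filter_apply_pos _ _ hx, Finsupp.filter_apply_pos _ _ hy]
        exact hW p' s' y e1 x
      · rw [Finsupp.filter_apply_neg _ _ hx]; simp
  · rintro T ⟨LT, t1, t2, t3, rfl⟩ S' hF hfilt
    obtain ⟨L, h1, h2, h3, rfl⟩ := hS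
    have hLT : ∀ c ∈ LT, c.1 ∈ N := by
      intro c hc
      have := (t2 c).mp hc
      by_contra hn
      rw [Finsupp.filter_apply_neg _ _ hn] at this
      omega
    have hperm : (L.filter (fun c => c.1 ∈ N)).Perm LT := by
      rw [List.perm_ext_iff_of_nodup (h1.filter _) t1]
      intro c
      rw [List.mem_filter, h2, t2]
      by_cases hn : c.1 ∈ N
      · simp [hn]
      · rw [Finsupp.filter_apply_neg _ _ hn]; simp [hn]; omega
    have s1 : (L.map (key q)).Pairwise (· ≤ ·) := by
      rw [List.pairwise_map]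
      exact h3.imp (fun h => (idealPos_le_key q hq _ _).mp h)
    have s2 : (LT.map (key q)).Pairwise (· ≤ ·) := by
      rw [List.pairwise_map]
      refine List.Pairwise.imp_of_mem ?_ t3
      intro a b ha hb h
      have := (idealPos_le_key _ hq' _ _).mp h
      simp only [key] at this ⊢
      rwa [Finsupp.filter_apply_pos _ _ (hLT a ha), Finsupp.filter_apply_pos _ _ (hLT b hb)]
        at this
    have s3 : ((L.filter (fun c => c.1 ∈ N)).map (key q)).Pairwise (· ≤ ·) :=
      s1.sublist (List.filter_sublist.map _)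
    obtain ⟨L', e1, e2, e3⟩ := rewrite_labels (key q) N L LT S' hF hfilt
      (List.Perm.eq_of_pairwise' s3 s2 (hperm.map _))
    have hp : L'.Perm L := by
      refine e3.trans ((hperm.symm.append_right _).trans ?_)
      have := List.filter_append_perm (fun c : ι × ℕ => decide (c.1 ∈ N)) L
      simpa using this
    refine ⟨L', hp.nodup_iff.mpr h1, fun c => by rw [hp.mem_iff, h2], ?_, e1.symm⟩
    rw [← e2, List.pairwise_map] at s1
    exact s1.imp (fun h => (idealPos_le_key q hq _ _).mpr h)

lemma pal_form {A : Type} (S : List A) (h : S.reverse = S) :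
    ∃ U W : List A, S = U ++ W ++ U.reverse ∧ W.length ≤ 1 := by
  have := List.Palindrome.of_reverse_eq h
  clear h
  induction this with
  | nil => exact ⟨[], [], rfl, by simp⟩
  | singleton x => exact ⟨[], [x], rfl, by simp⟩
  | cons_concat x _ ih =>
    obtain ⟨U, W, rfl, h⟩ := ih
    exact ⟨x :: U, W, by simp, h⟩

theorem eip_isReflective : IsReflectiveOffTies (EIP (ι := ι)) := by
  intro q hq hinj S hS
  have hc := count_of_eip hS
  obtain ⟨L, h1, h2, h3, rfl⟩ := hS
  set m : ι × ℕ → ι × ℕ := fun c => (c.1, q c.1 + 1 - c.2) with hm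
  have hmm : ∀ c ∈ L, m (m c) = c := by
    intro c hc
    have := (h2 c).mp hc
    ext
    · rfl
    · simp only [hm]; omega
  have hmL : ∀ c ∈ L, m c ∈ L := by
    intro c hc
    have := (h2 c).mp hc
    rw [h2]; simp only [hm]; omega
  have hkey : ∀ c ∈ L, key q (m c) = 2 - key q c := by
    intro c hc
    have := (h2 c).mp hc
    have hpos : (q c.1 : ℚ) ≠ 0 := by
      have : q c.1 ≠ 0 := by omega
      exact_mod_cast this
    simp only [key, hm]
    rw [Nat.cast_sub (by omega)]
    push_cast
    field_simp
    ring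
  have hnd : ((L.map m).reverse).Nodup := by
    rw [List.nodup_reverse]
    refine List.Nodup.map_on ?_ h1
    intro a ha b hb hab
    rw [← hmm a ha, hab, hmm b hb]
  have hperm : L.Perm (L.map m).reverse := by
    rw [List.perm_ext_iff_of_nodup h1 hnd]
    intro c
    rw [List.mem_reverse, List.mem_map]
    constructor
    · intro hc; exact ⟨m c, hmL c hc, hmm c hc⟩
    · rintro ⟨a, ha, rfl⟩; exact hmL a ha
  have hpw : ((L.map m).reverse).Pairwise (fun c c' => idealPos q c ≤ idealPos q c') := by
    rw [List.pairwise_reverse, List.pairwise_map]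
    refine List.Pairwise.imp_of_mem ?_ h3
    intro a b ha hb h
    rw [idealPos_le_key q hq] at h ⊢
    rw [hkey a ha, hkey b hb]
    linarith
  have heq : L = (L.map m).reverse := by
    refine List.Perm.eq_of_pairwise ?_ h3 hpw hperm
    intro a b ha hb hab hba
    exact hinj ((h2 a).mp ha) ((h2 b).mp (hperm.mem_iff.mpr hb)) (le_antisymm hab hba)
  have hpal : (L.map Prod.fst).reverse = L.map Prod.fst := by
    conv_rhs => rw [heq]
    rw [List.map_reverse, List.map_map]
    rfl
  obtain ⟨U, W, e, hW⟩ := pal_form _ hpal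
  refine ⟨U, W, e, ?_, ?_⟩
  · rcases W with _ | ⟨a, _ | ⟨b, W⟩⟩
    · simp
    · simp
    · simp at hW
  · intro i
    rw [← hc i, e]
    simp only [List.count_append, List.count_reverse]
    have hle : W.count i ≤ 1 := List.count_le_length.trans hW
    rw [← List.count_pos_iff, Nat.odd_iff]
    omega

theorem main (ι : Type) [Infinite ι] [DecidableEq ι] :
    (IsMethod (EIP (ι := ι)) ∧ IsPeriodic (EIP (ι := ι)) ∧ IsUniform (EIP (ι := ι)) ∧
      IsReflectiveOffTies (EIP (ι := ι))) ∧
    ∀ F : (ι →₀ ℕ) → Set (List ι),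
      IsMethod F → IsPeriodic F → IsUniform F → IsReflectiveOffTies F →
      ∀ q : ι →₀ ℕ, q ≠ 0 → F q ⊆ EIP q :=
  ⟨⟨eip_isMethod, eip_isPeriodic, eip_isUniform, eip_isReflective⟩,
    fun _ hM hP hU hR q hq _ hT => eip_of_webster hq ((hM q hq).2 _ hT)
      (fun p s y e x => webster_of_mem hM hP hU hR hq hT p s y e x)⟩

end Pool.Agent.P.MP_d7fca3_co
end
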